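import Pool.Agent.Helper34.SQ.GoalsT

/-! Project SQ (MP_bb32d1_al), packet EFFE. -/

set_option autoImplicit false
set_option linter.unusedSectionVars false

namespace Pool.Agent.Helper27.SQ

noncomputable section

open Matrix Pool.Agent.Helper19.SQ Pool.Agent.Helper34.SQ

variable {A : Type} [Ring A] [Algebra ℂ A] {ι κ : Type} [Fintype ι] [DecidableEq ι]
  [Fintype κ] [DecidableEq κ]

theorem trace_Phi (f : A →ₐ[ℂ] Matrix ι ι A) (M : Matrix ι ι A) :
    Matrix.trace (Phi f M) = Matrix.trace (f (Matrix.trace M)) := by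
  simp only [Matrix.trace, Matrix.diag_apply, Phi_apply, Fintype.sum_prod_type, map_sum,
    Matrix.sum_apply]
  rw [Finset.sum_comm]

theorem trace_mul_diag (M : Matrix κ κ A) (a : A) :
    Matrix.trace (M * Matrix.diagonal fun _ => a) = Matrix.trace M * a := by
  simp only [Matrix.trace, Matrix.diag_apply, Matrix.mul_diagonal, Finset.sum_mul]

theorem X1_diag (a : A) : X1 (Matrix.diagonal fun _ : ι => a) = Matrix.diagonal fun _ => a := by
  ext x y
  simp only [X1, Matrix.of_apply, Matrix.diagonal_apply]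
  by_cases h1 : x.1 = y.1
  · by_cases h2 : x.2 = y.2
    · rw [if_pos h1, if_pos h2, if_pos (Prod.ext h1 h2)]
    · rw [if_pos h1, if_neg h2, if_neg fun h => h2 (congrArg Prod.snd h)]
  · rw [if_neg h1, if_neg fun h => h1 (congrArg Prod.fst h)]

theorem X1_mul (M M' : Matrix ι ι A) : X1 (M * M') = X1 M * X1 M' := map_mul bd M M'

/-- `trace (D * X1 (f a))` with `D = Phi f (g y)`. -/
theorem trace_D_X1 (f g : A →ₐ[ℂ] Matrix ι ι A) (y a : A) :
    Matrix.trace (f (Matrix.trace (g y) * a)) = Matrix.trace (Phi f (g y) * X1 (f a)) := by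
  rw [X1_delta, ← map_mul, trace_Phi, trace_mul_diag]

theorem t_effe (hCORE1 : S_CORE1) (hBLX : S_BLX) (hTR : S_TR) :
    Pool.Agent.Helper34.SQ.S_EFFE := by
  intro A _ _ ι _ _ l C ζ c m τ hτ
  obtain ⟨h1, h2, h3, h4, h5, -⟩ := hCORE1 A ι l C
  have htr := hτ.tr
  have hblk := hτ.blk
  set p := C.pc c with hp
  refine LinearMap.ext fun x => ?_
  set y := x * C.e m with hy
  -- the first term
  have hE : Et C c (m - al c) (Ft C c m τ) x =
      τ (Matrix.trace (pev p (X1 C.X) * D1 C.δ C.ε y)) := by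
    rw [Et_apply, Ft_apply, sub_add_cancel, trace_D_X1, ← D1_eq, ← hy]
    have e1 : pev p (X1 C.X) * Matrix.diagonal (fun _ => C.e m) =
        X1 (C.δ (C.e (m - al c))) * Matrix.diagonal (fun _ => C.e m) := by
      rw [pev_X1, ← X1_diag, ← X1_mul, ← X1_mul, hp, C.BL1 c m]
    calc τ (Matrix.trace (D1 C.δ C.ε y * X1 (C.δ (C.e (m - al c)))))
        = τ (Matrix.trace (D1 C.δ C.ε y * X1 (C.δ (C.e (m - al c))) *
            Matrix.diagonal (fun _ => C.e m))) := by rw [trace_mul_diag, hblk]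
      _ = τ (Matrix.trace (D1 C.δ C.ε y * pev p (X1 C.X) *
            Matrix.diagonal (fun _ => C.e m))) := by rw [mul_assoc, ← e1, ← mul_assoc]
      _ = τ (Matrix.trace (D1 C.δ C.ε y * pev p (X1 C.X))) := by rw [trace_mul_diag, hblk]
      _ = _ := by rw [pev_comm (h1 y) p]
  -- the second term
  have hF : Ft C c (m + al c) (Et C c m τ) x =
      τ (Matrix.trace (pev p (X2 C.ε C.X) * D2 C.δ C.ε y)) := by
    rw [Ft_apply, Et_apply, add_sub_cancel_right, trace_D_X1, ← D2_eq, ← hy, hy, D2_mul,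
      mul_assoc, ← hBLX A ι l C c m, ← mul_assoc, ← mul_assoc, ← hp, pev_comm (h2 x) p]
  -- comparison of D1 and D2
  have hD : τ (Matrix.trace (pev p (X1 C.X) * D1 C.δ C.ε y)) =
      τ (Matrix.trace (pev p (sc A C.S * X1 C.X * sc A C.T) * D2 C.δ C.ε y)) := by
    rw [h5 p, mul_assoc (sc A C.S * pev p (X1 C.X)), h3 y, mul_assoc (sc A C.S),
      trace_comm_of_tr htr (sc A C.S), mul_assoc, mul_assoc, sc_mul, C.TS, sc_one, mul_one]
  have hsum : ∀ Y : Matrix (ι × ι) (ι × ι) A, τ (Matrix.trace (pev p Y * D2 C.δ C.ε y)) =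
      ∑ k ∈ Finset.range (p.natDegree + 1), p.coeff k * τ (Matrix.trace (Y ^ k * D2 C.δ C.ε y)) := by
    intro Y
    rw [pev, Polynomial.aeval_eq_sum_range, Finset.sum_mul, Matrix.trace_sum, map_sum]
    refine Finset.sum_congr rfl fun k _ => ?_
    rw [smul_mul_assoc, Matrix.trace_smul, map_smul, smul_eq_mul]
  have hdiff : τ (Matrix.trace (pev p (X2 C.ε C.X) * D2 C.δ C.ε y)) -
      τ (Matrix.trace (pev p (sc A C.S * X1 C.X * sc A C.T) * D2 C.δ C.ε y)) =
      τ ((∑ k ∈ Finset.range (p.natDegree + 1), p.coeff k • C.toCore0.pi k) * y) := by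
    rw [hsum, hsum, ← Finset.sum_sub_distrib, Finset.sum_mul, map_sum]
    refine Finset.sum_congr rfl fun k _ => ?_
    rw [← mul_sub, hTR A (ι × ι) (X2 C.ε C.X) (sc A C.S * X1 C.X * sc A C.T) (D2 C.δ C.ε y)
      C.u C.v y τ C.X2eq (h2 y) (C.uD y) htr k, smul_mul_assoc, map_smul, smul_eq_mul]
    rfl
  have hfin : τ ((∑ k ∈ Finset.range (p.natDegree + 1), p.coeff k • C.toCore0.pi k) * y) =
      ((m (c + 1) - m c : ℤ) : ℂ) * τ x := by
    rw [hy, ← C.e_cen m x, ← mul_assoc, hp, C.DL c m, smul_mul_assoc, map_smul, smul_eq_mul,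
      C.e_cen m x, hblk]
  rw [LinearMap.sub_apply, LinearMap.smul_apply, smul_eq_mul, hE, hF, hD]
  have : ((m c - m (c + 1) : ℤ) : ℂ) * τ x = - (((m (c + 1) - m c : ℤ) : ℂ) * τ x) := by
    push_cast
    ring
  rw [this, ← hfin, ← hdiff]
  ring

end

end Pool.Agent.Helper27.SQ
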