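import Pool.Agent.Helper19.SQ.GoalsQ2

/-! Project SQ (MP_bb32d1_al), packet SM. -/

set_option autoImplicit false
set_option linter.unusedSectionVars false

namespace Pool.Agent.Helper27.SQ

noncomputable section

open Matrix Pool.Agent.Helper19.SQ

section blocks

variable {ι : Type} [Fintype ι] [DecidableEq ι]

/-- `M` on the diagonal pairs, the identity elsewhere -/
def dgn (M : Matrix ι ι ℂ) : Matrix (ι × ι) (ι × ι) ℂ := fun x y =>
  if y.1 = y.2 then (if x.1 = x.2 then M x.1 y.1 else 0) else (if x = y then 1 else 0)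

/-- `M` on the diagonal pairs, the flip elsewhere -/
def dgp (M : Matrix ι ι ℂ) : Matrix (ι × ι) (ι × ι) ℂ := fun x y =>
  if y.1 = y.2 then (if x.1 = x.2 then M x.1 y.1 else 0)
  else (if x.1 = y.2 ∧ x.2 = y.1 then 1 else 0)

theorem sum_diag (f : ι × ι → ℂ) (g : ι → ℂ) :
    ∑ z : ι × ι, f z * (if z.1 = z.2 then g z.1 else 0) = ∑ c, f (c, c) * g c := by
  rw [Fintype.sum_prod_type]
  refine Finset.sum_congr rfl fun a _ => ?_
  rw [Finset.sum_eq_single a]
  · simp
  · intro b _ hb
    simp [Ne.symm hb]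
  · intro h
    exact absurd (Finset.mem_univ _) h

theorem sum_flip (f : ι × ι → ℂ) (y : ι × ι) :
    ∑ z : ι × ι, f z * (if z.1 = y.2 ∧ z.2 = y.1 then 1 else 0) = f (y.2, y.1) := by
  rw [Finset.sum_eq_single (y.2, y.1)]
  · simp
  · intro b _ hb
    rw [if_neg, mul_zero]
    rintro ⟨h1, h2⟩
    exact hb (Prod.ext h1 h2)
  · intro h
    exact absurd (Finset.mem_univ _) h

theorem dgp_mul_dgp (M M' : Matrix ι ι ℂ) : dgp M * dgp M' = dgn (M * M') := by
  ext x y
  rw [Matrix.mul_apply]
  by_cases hy : y.1 = y.2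
  · have e : ∀ z, dgp M x z * dgp M' z y =
        dgp M x z * (if z.1 = z.2 then (fun c => M' c y.1) z.1 else 0) := by
      intro z
      simp only [dgp, if_pos hy]
    rw [Finset.sum_congr rfl fun z _ => e z, sum_diag (fun z => dgp M x z) (fun c => M' c y.1)]
    simp only [dgp, dgn, if_pos hy, if_true, Matrix.mul_apply]
    by_cases hx : x.1 = x.2
    · simp only [if_pos hx]
    · simp only [if_neg hx, zero_mul, Finset.sum_const_zero]
  · have e : ∀ z, dgp M x z * dgp M' z y =
        dgp M x z * (if z.1 = y.2 ∧ z.2 = y.1 then 1 else 0) := by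
      intro z
      simp only [dgp, if_neg hy]
    rw [Finset.sum_congr rfl fun z _ => e z, sum_flip (fun z => dgp M x z) y]
    simp only [dgp, dgn, if_neg hy, if_neg (fun h : y.2 = y.1 => hy h.symm)]
    by_cases hx : x = y
    · rw [if_pos hx, if_pos ⟨congrArg Prod.fst hx, congrArg Prod.snd hx⟩]
    · rw [if_neg hx, if_neg fun h => hx (Prod.ext h.1 h.2)]

theorem dgn_mul_dgp (M M' : Matrix ι ι ℂ) : dgn M * dgp M' = dgp (M * M') := by
  ext x y
  rw [Matrix.mul_apply]
  by_cases hy : y.1 = y.2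
  · have e : ∀ z, dgn M x z * dgp M' z y =
        dgn M x z * (if z.1 = z.2 then (fun c => M' c y.1) z.1 else 0) := by
      intro z
      simp only [dgp, if_pos hy]
    rw [Finset.sum_congr rfl fun z _ => e z, sum_diag (fun z => dgn M x z) (fun c => M' c y.1)]
    simp only [dgp, dgn, if_pos hy, if_true, Matrix.mul_apply]
    by_cases hx : x.1 = x.2
    · simp only [if_pos hx]
    · simp only [if_neg hx, zero_mul, Finset.sum_const_zero]
  · have e : ∀ z, dgn M x z * dgp M' z y =
        dgn M x z * (if z.1 = y.2 ∧ z.2 = y.1 then 1 else 0) := by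
      intro z
      simp only [dgp, if_neg hy]
    rw [Finset.sum_congr rfl fun z _ => e z, sum_flip (fun z => dgn M x z) y]
    simp only [dgp, dgn, if_neg hy, if_neg (fun h : y.2 = y.1 => hy h.symm)]
    by_cases hx : x.1 = y.2 ∧ x.2 = y.1
    · rw [if_pos hx, if_pos (Prod.ext hx.1 hx.2)]
    · rw [if_neg hx, if_neg fun h => hx ⟨congrArg Prod.fst h, congrArg Prod.snd h⟩]

theorem dgn_one : dgn (1 : Matrix ι ι ℂ) = 1 := by
  ext x y
  simp only [dgn, Matrix.one_apply]
  by_cases hy : y.1 = y.2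
  · rw [if_pos hy]
    by_cases hx : x.1 = x.2
    · rw [if_pos hx]
      by_cases h : x.1 = y.1
      · rw [if_pos h, if_pos (Prod.ext h (hx.symm.trans (h.trans hy)))]
      · rw [if_neg h, if_neg fun e => h (congrArg Prod.fst e)]
    · rw [if_neg hx, if_neg]
      intro e
      exact hx (by rw [e, hy])
  · rw [if_neg hy]

end blocks

/-- the diagonal block of `S` -/
def sN (n : ℕ) (q : ℂ) : Matrix (Fin n) (Fin n) ℂ := fun a b =>
  if a = b then q else if b < a then (q - q⁻¹) * q ^ (2 * ((a : ℕ) - (b : ℕ))) else 0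

/-- the diagonal block of `T`, `R_L` -/
def rN (n : ℕ) (q : ℂ) : Matrix (Fin n) (Fin n) ℂ := fun a b =>
  if a = b then q⁻¹ else if b < a then -(q - q⁻¹) else 0

/-- the diagonal block of `R_Y` -/
def rY (n : ℕ) (q : ℂ) : Matrix (Fin n) (Fin n) ℂ := fun a b =>
  if a = b then q⁻¹ else if a < b then -(q - q⁻¹) * q⁻¹ ^ (2 * ((b : ℕ) - (a : ℕ))) else 0

/-- the columns of `S` as functions on the naturals -/
def sf (q : ℂ) (b c : ℕ) : ℂ :=
  if c = b then q else if b < c then (q - q⁻¹) * q ^ (2 * (c - b)) else 0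

theorem sum_sf {q : ℂ} (hq : q ≠ 0) (b a : ℕ) :
    ∑ c ∈ Finset.range a, sf q b c = if a ≤ b then 0 else q⁻¹ * q ^ (2 * (a - b)) := by
  induction a with
  | zero => simp
  | succ a ih =>
    rw [Finset.sum_range_succ, ih]
    rcases lt_trichotomy a b with h | h | h
    · rw [if_pos h.le, if_pos (by omega), sf, if_neg (by omega), if_neg (by omega), add_zero]
    · subst h
      rw [if_pos le_rfl, if_neg (by omega), sf, if_pos rfl, zero_add]
      have : a + 1 - a = 1 := by omega
      rw [this]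
      field_simp
    · rw [if_neg (by omega), if_neg (by omega), sf, if_neg (by omega), if_pos h]
      have : a + 1 - b = (a - b) + 1 := by omega
      rw [this, mul_add, pow_add]
      field_simp
      ring

theorem rN_mul_sN {n : ℕ} {q : ℂ} (hq : q ≠ 0) : rN n q * sN n q = 1 := by
  ext a b
  rw [Matrix.mul_apply]
  have e1 : ∀ c : Fin n, rN n q a c * sN n q c b =
      (fun c : ℕ => (if (a : ℕ) = c then q⁻¹ else if c < a then -(q - q⁻¹) else 0) * sf q b c) c := by
    intro c
    simp only [rN, sN, sf, Fin.ext_iff, Fin.lt_def]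
  rw [Finset.sum_congr rfl fun c _ => e1 c, Fin.sum_univ_eq_sum_range (fun c : ℕ =>
    (if (a : ℕ) = c then q⁻¹ else if c < a then -(q - q⁻¹) else 0) * sf q b c) n]
  rw [← Finset.sum_subset (Finset.range_subset_range.2 (show (a : ℕ) + 1 ≤ n from a.2))]
  · rw [Finset.sum_range_succ, if_pos rfl]
    have e2 : ∀ c ∈ Finset.range (a : ℕ),
        (if (a : ℕ) = c then q⁻¹ else if c < a then -(q - q⁻¹) else 0) * sf q b c =
        -(q - q⁻¹) * sf q b c := by
      intro c hc
      rw [Finset.mem_range] at hc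
      rw [if_neg (by omega), if_pos hc]
    rw [Finset.sum_congr rfl e2, ← Finset.mul_sum, sum_sf hq, Matrix.one_apply]
    rcases lt_trichotomy (a : ℕ) b with h | h | h
    · rw [if_pos h.le, if_neg (by omega), sf, if_neg (by omega), if_neg (by omega)]
      ring
    · rw [if_pos h.le, if_pos (Fin.ext h), sf, if_pos h]
      field_simp
      ring
    · rw [if_neg (by omega), if_neg (by omega), sf, if_neg (by omega), if_pos h]
      ring
  · intro c _ hc
    rw [Finset.mem_range, not_lt] at hc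
    rw [if_neg (by omega), if_neg (by omega), zero_mul]

theorem Smat_eq (N : ℕ) (q : ℂ) : Smat N q = dgp (sN (N + 1) q) := by
  ext x y
  simp only [Smat, Matrix.of_apply, dgp, sN]

theorem Tmat_eq (N : ℕ) (q : ℂ) : Tmat N q = dgp (rN (N + 1) q) := by
  ext x y
  simp only [Tmat, Matrix.of_apply, dgp, rN]

theorem Pm_eq (N : ℕ) : Pm N = dgp (1 : Matrix (Fin (N + 1)) (Fin (N + 1)) ℂ) := by
  ext x y
  simp only [Pm, Matrix.of_apply, dgp, Matrix.one_apply]
  by_cases hy : y.1 = y.2
  · rw [if_pos hy]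
    by_cases h : x.1 = y.2 ∧ x.2 = y.1
    · rw [if_pos h, if_pos (h.1.trans (hy.symm.trans h.2.symm)), if_pos (h.1.trans hy.symm)]
    · rw [if_neg h]
      by_cases hx : x.1 = x.2
      · rw [if_pos hx, if_neg]
        intro h'
        exact h ⟨h'.trans hy, hx.symm.trans h'⟩
      · rw [if_neg hx]
  · rw [if_neg hy]

theorem RLm_eq (N : ℕ) (q : ℂ) : RLm N q = dgn (rN (N + 1) q) := by
  ext x y
  obtain ⟨x1, x2⟩ := x
  obtain ⟨y1, y2⟩ := y
  simp only [RLm, Matrix.of_apply, dgn, rN, Prod.mk.injEq]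
  by_cases hy : y1 = y2
  · subst hy
    by_cases h1 : x1 = y1
    · subst h1
      simp [eq_comm]
    · by_cases h2 : y1 < x1
      · simp [h1, h2, eq_comm]
      · simp [h1, h2]
  · by_cases h1 : x1 = y1
    · subst h1
      simp [hy, Ne.symm hy]
    · by_cases h2 : y1 < x1
      · simp [h1, h2, hy, Ne.symm hy]
      · simp [h1, h2, hy]

theorem RYm_eq (N : ℕ) (q : ℂ) : RYm N q = dgn (rY (N + 1) q) := by
  ext x y
  obtain ⟨x1, x2⟩ := x
  obtain ⟨y1, y2⟩ := y
  simp only [RYm, Matrix.of_apply, dgn, rY, Prod.mk.injEq]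
  by_cases hy : y1 = y2
  · subst hy
    by_cases h1 : x1 = y1
    · subst h1
      simp [eq_comm]
    · by_cases h2 : x1 < y1
      · simp [h1, h2, eq_comm]
      · simp [h1, h2]
  · by_cases h1 : x1 = y1
    · subst h1
      simp [hy, Ne.symm hy]
    · by_cases h2 : x1 < y1
      · simp [h1, h2, hy, Ne.symm hy]
      · simp [h1, h2, hy]

theorem sSM : S_SM := by
  intro N q hq
  have h1 := rN_mul_sN (n := N + 1) hq
  have h2 : sN (N + 1) q * rN (N + 1) q = 1 := mul_eq_one_comm.1 h1
  refine ⟨?_, ?_, ?_, ?_⟩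
  · rw [Smat_eq, Tmat_eq, dgp_mul_dgp, h2, dgn_one]
  · rw [Smat_eq, Tmat_eq, dgp_mul_dgp, h1, dgn_one]
  · rw [RLm_eq, Smat_eq, dgn_mul_dgp, h1, Pm_eq]
  · rw [RYm_eq, Pm_eq, dgn_mul_dgp, mul_one, Smat_eq]
    ext x y
    obtain ⟨x1, x2⟩ := x
    obtain ⟨y1, y2⟩ := y
    simp only [Matrix.sub_apply, Matrix.smul_apply, vecMulVec_apply, smul_eq_mul, dgp, cupn, capn]
    by_cases hy : y1 = y2
    · subst hy
      by_cases hx : x1 = x2
      · subst hx
        simp only [if_true, rY, sN]
        rcases lt_trichotomy x1 y1 with h | h | h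
        · rw [if_neg h.ne, if_pos h, if_neg h.ne, if_neg h.not_gt]
          have h' : (x1 : ℕ) < y1 := h
          obtain ⟨d, hd⟩ := Nat.exists_eq_add_of_lt h'
          have e : (y1 : ℕ) - x1 = d + 1 := by omega
          rw [e, hd, show 2 * ((x1 : ℕ) + d + 1) = 2 * (x1 : ℕ) + 2 * (d + 1) by ring,
            pow_add q⁻¹ (2 * (x1 : ℕ)), ← mul_assoc (q ^ (2 * (x1 : ℕ))), ← mul_pow,
            mul_inv_cancel₀ hq, one_pow]
          ring
        · subst h
          rw [if_pos rfl, if_pos rfl, ← mul_pow, mul_inv_cancel₀ hq, one_pow]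
          ring
        · rw [if_neg h.ne', if_neg h.not_gt, if_neg h.ne', if_pos h]
          have h' : (y1 : ℕ) < x1 := h
          obtain ⟨d, hd⟩ := Nat.exists_eq_add_of_lt h'
          have e : (x1 : ℕ) - y1 = d + 1 := by omega
          rw [e, hd, show 2 * ((y1 : ℕ) + d + 1) = 2 * (d + 1) + 2 * (y1 : ℕ) by ring,
            pow_add q (2 * (d + 1)), mul_assoc (q ^ (2 * (d + 1))), ← mul_pow,
            mul_inv_cancel₀ hq, one_pow]
          ring
      · simp [hx]
    · simp [hy]

end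

end Pool.Agent.Helper27.SQ
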